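import Pool.Agent.helper73.BRZ.Spec

/-!
# Project brz, row MEA: the Mellin transform of the counting function
-/

set_option autoImplicit false

namespace Pool.Agent.BRZ

open MeasureTheory Filter Topology Asymptotics Set

theorem MEA_cc_zero (d : ℕ) : cc d 0 = 0 := by
  cases d with
  | zero => simp [cc]
  | succ d => simp [cc]

theorem MEA_supp {Ψ : ℝ → ℝ} {a b : ℝ} (ha : 0 < a) (h : ∀ r, Ψ r ≠ 0 → a ≤ r ∧ r ≤ b) (U : ℝ)
    (w : ℕ) (hw : Ψ (U / w) ≠ 0) : 0 < w ∧ a * w ≤ U := by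
  have h1 := (h _ hw).1
  rcases Nat.eq_zero_or_pos w with h0 | h0
  · subst h0
    simp at h1
    linarith
  · refine ⟨h0, ?_⟩
    have : (0 : ℝ) < w := by exact_mod_cast h0
    rwa [le_div_iff₀ this] at h1

/-- the counting function as a finite sum -/
theorem MEA_finite {Ψ : ℝ → ℝ} {a b : ℝ} (ha : 0 < a) (h : ∀ r, Ψ r ≠ 0 → a ≤ r ∧ r ≤ b) (d : ℕ)
    (U : ℝ) (N : ℕ) (hN : U < a * N) (w : ℕ) (hw : w ∉ Finset.range N) :
    (cc d w : ℝ) * Ψ (U / w) = 0 := by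
  have hw' : N ≤ w := by simpa using hw
  by_contra hne
  have h1 : Ψ (U / w) ≠ 0 := fun h0 => hne (by rw [h0, mul_zero])
  have h2 := (MEA_supp ha h U w h1).2
  have h3 : (N : ℝ) ≤ w := by exact_mod_cast hw'
  nlinarith

theorem MEA_exists {a : ℝ} (ha : 0 < a) (U : ℝ) : ∃ N : ℕ, U < a * N := by
  obtain ⟨N, hN⟩ := exists_nat_gt (U / a)
  exact ⟨N, by rwa [div_lt_iff₀' ha] at hN⟩

theorem MEA_summable {Ψ : ℝ → ℝ} {a b : ℝ} (ha : 0 < a) (h : ∀ r, Ψ r ≠ 0 → a ≤ r ∧ r ≤ b) (d : ℕ)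
    (U : ℝ) : Summable (fun w : ℕ => (cc d w : ℝ) * Ψ (U / w)) := by
  obtain ⟨N, hN⟩ := MEA_exists ha U
  exact summable_of_ne_finset_zero (s := Finset.range N) (MEA_finite ha h d U N hN)

theorem MEA_meas {Ψ : ℝ → ℝ} {a b : ℝ} (hm : Measurable Ψ) (ha : 0 < a)
    (h : ∀ r, Ψ r ≠ 0 → a ≤ r ∧ r ≤ b) (d : ℕ) :
    Measurable (fun U : ℝ => ∑' w : ℕ, (cc d w : ℝ) * Ψ (U / w)) := by
  refine measurable_of_tendsto_metrizable
    (f := fun (N : ℕ) (U : ℝ) => ∑ w ∈ Finset.range N, (cc d w : ℝ) * Ψ (U / w)) ?_ ?_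
  · intro N
    refine Finset.measurable_fun_sum _ fun w _ => ?_
    exact (hm.comp (measurable_id.div_const _)).const_mul _
  · rw [tendsto_pi_nhds]
    intro U
    exact (MEA_summable ha h d U).hasSum.tendsto_sum_nat

/-- Mellin convergence of the weight -/
theorem MEA_conv {Ψ : ℝ → ℝ} {a b B : ℝ} (hm : Measurable Ψ) (ha : 0 < a)
    (h : ∀ r, Ψ r ≠ 0 → a ≤ r ∧ r ≤ b) (h0 : ∀ r, 0 ≤ Ψ r) (hB : ∀ r, Ψ r ≤ B) (z : ℂ) :
    IntegrableOn (fun r : ℝ => (Ψ r : ℂ) * (r : ℂ) ^ z) (Ioi 0) := by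
  have h1 : IntegrableOn (fun r : ℝ => (Ψ r : ℂ) * (r : ℂ) ^ z) (Icc a b) := by
    have h2 : IntegrableOn (fun r : ℝ => (r : ℂ) ^ z) (Icc a b) := by
      refine ContinuousOn.integrableOn_compact isCompact_Icc ?_
      intro r hr
      refine ContinuousAt.continuousWithinAt ?_
      refine (continuousAt_cpow_const ?_).comp Complex.continuous_ofReal.continuousAt
      exact Or.inl (by simpa using ha.trans_le hr.1)
    refine Integrable.bdd_mul (c := B) h2 ?_ ?_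
    · exact (Complex.measurable_ofReal.comp hm).aestronglyMeasurable
    · refine Eventually.of_forall fun r => ?_
      rw [Complex.norm_real, Real.norm_eq_abs, abs_of_nonneg (h0 r)]
      exact hB r
  refine (h1.integrable_of_forall_notMem_eq_zero ?_).integrableOn
  intro r hr
  have : Ψ r = 0 := by
    by_contra hne
    exact hr (h r hne)
  rw [this]
  simp

/-- the summands -/
theorem MEA_F (Ψ : ℝ → ℝ) (z : ℂ) (c : ℂ) {w : ℕ} (hw : 0 < w) {U : ℝ} (hU : 0 < U) :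
    c * (Ψ (U / w) : ℂ) * (U : ℂ) ^ z =
      (c * (w : ℂ) ^ z) * ((Ψ (U * (w : ℝ)⁻¹) : ℂ) * ((U * (w : ℝ)⁻¹ : ℝ) : ℂ) ^ z) := by
  have hw' : (0 : ℝ) < w := by exact_mod_cast hw
  have h1 : (U : ℂ) ^ z = (w : ℂ) ^ z * ((U * (w : ℝ)⁻¹ : ℝ) : ℂ) ^ z := by
    have h2 := Complex.mul_cpow_ofReal_nonneg hw'.le (mul_nonneg hU.le (inv_nonneg.mpr hw'.le)) z
    rw [← Complex.ofReal_mul] at h2
    have h3 : (w : ℝ) * (U * (w : ℝ)⁻¹) = U := by field_simp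
    rw [h3] at h2
    rw [h2, Complex.ofReal_natCast]
  rw [h1, div_eq_mul_inv]
  ring

theorem MEA_int {Ψ : ℝ → ℝ} (s : ℂ) (hG : IntegrableOn (fun r : ℝ => (Ψ r : ℂ) * (r : ℂ) ^ (-s - 1)) (Ioi 0))
    (d w : ℕ) :
    IntegrableOn (fun U : ℝ => (cc d w : ℂ) * (Ψ (U / w) : ℂ) * (U : ℂ) ^ (-s - 1)) (Ioi 0) ∧
    ∫ U in Ioi (0 : ℝ), (cc d w : ℂ) * (Ψ (U / w) : ℂ) * (U : ℂ) ^ (-s - 1) =
      LSeries.term (fun w => (cc d w : ℂ)) s w * ∫ r in Ioi (0 : ℝ), (Ψ r : ℂ) * (r : ℂ) ^ (-s - 1) ∧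
    ∫ U in Ioi (0 : ℝ), ‖(cc d w : ℂ) * (Ψ (U / w) : ℂ) * (U : ℂ) ^ (-s - 1)‖ =
      ‖LSeries.term (fun w => (cc d w : ℂ)) s w‖ *
        ∫ r in Ioi (0 : ℝ), ‖(Ψ r : ℂ) * (r : ℂ) ^ (-s - 1)‖ := by
  rcases Nat.eq_zero_or_pos w with hw | hw
  · subst hw
    simp [MEA_cc_zero]
  · have hw' : (0 : ℝ) < w := by exact_mod_cast hw
    have hwi : (0 : ℝ) < (w : ℝ)⁻¹ := inv_pos.mpr hw'
    have hw0 : (w : ℂ) ≠ 0 := by exact_mod_cast hw.ne'
    have h1 : ∀ U ∈ Ioi (0 : ℝ), (cc d w : ℂ) * (Ψ (U / w) : ℂ) * (U : ℂ) ^ (-s - 1) =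
        ((cc d w : ℂ) * (w : ℂ) ^ (-s - 1)) *
          ((Ψ (U * (w : ℝ)⁻¹) : ℂ) * ((U * (w : ℝ)⁻¹ : ℝ) : ℂ) ^ (-s - 1)) :=
      fun U hU => MEA_F Ψ (-s - 1) _ hw hU
    have hterm : LSeries.term (fun w => (cc d w : ℂ)) s w =
        (cc d w : ℂ) * (w : ℂ) ^ (-s - 1) * w := by
      rw [LSeries.term_of_ne_zero hw.ne', Complex.cpow_sub _ _ hw0, Complex.cpow_neg,
        Complex.cpow_one]
      field_simp
    refine ⟨?_, ?_, ?_⟩
    · rw [integrableOn_congr_fun h1 measurableSet_Ioi]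
      refine Integrable.const_mul ?_ _
      have h2 := (integrableOn_Ioi_comp_mul_right_iff
        (fun r : ℝ => (Ψ r : ℂ) * (r : ℂ) ^ (-s - 1)) 0 hwi).mpr (by rwa [zero_mul])
      exact h2
    · rw [setIntegral_congr_fun measurableSet_Ioi h1, integral_const_mul,
        integral_comp_mul_right_Ioi (fun r : ℝ => (Ψ r : ℂ) * (r : ℂ) ^ (-s - 1)) 0 hwi, zero_mul,
        inv_inv, hterm]
      simp only [Complex.real_smul, Complex.ofReal_natCast]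
      ring
    · have h2 : ∀ U ∈ Ioi (0 : ℝ), ‖(cc d w : ℂ) * (Ψ (U / w) : ℂ) * (U : ℂ) ^ (-s - 1)‖ =
          ‖(cc d w : ℂ) * (w : ℂ) ^ (-s - 1)‖ *
            ‖(Ψ (U * (w : ℝ)⁻¹) : ℂ) * ((U * (w : ℝ)⁻¹ : ℝ) : ℂ) ^ (-s - 1)‖ := by
        intro U hU
        rw [h1 U hU, norm_mul]
      rw [setIntegral_congr_fun measurableSet_Ioi h2, integral_const_mul,
        integral_comp_mul_right_Ioi (fun r : ℝ => ‖(Ψ r : ℂ) * (r : ℂ) ^ (-s - 1)‖) 0 hwi, zero_mul,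
        inv_inv, hterm, norm_mul _ (w : ℂ), Complex.norm_natCast]
      simp only [smul_eq_mul]
      ring

theorem MEA_hasSum {Ψ : ℝ → ℝ} {a b : ℝ} (ha : 0 < a) (h : ∀ r, Ψ r ≠ 0 → a ≤ r ∧ r ≤ b) (s : ℂ)
    (hG : IntegrableOn (fun r : ℝ => (Ψ r : ℂ) * (r : ℂ) ^ (-s - 1)) (Ioi 0))
    (d : ℕ) (hs : LSeriesSummable (fun w => (cc d w : ℂ)) s) :
    ∫ U in Ioi (0 : ℝ), ((∑' w : ℕ, (cc d w : ℝ) * Ψ (U / w) : ℝ) : ℂ) * (U : ℂ) ^ (-s - 1) =
      LSeries (fun w => (cc d w : ℂ)) s * ∫ r in Ioi (0 : ℝ), (Ψ r : ℂ) * (r : ℂ) ^ (-s - 1) := by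
  have h1 := hasSum_integral_of_summable_integral_norm
    (μ := volume.restrict (Ioi (0 : ℝ)))
    (F := fun (w : ℕ) (U : ℝ) => (cc d w : ℂ) * (Ψ (U / w) : ℂ) * (U : ℂ) ^ (-s - 1))
    (fun w => (MEA_int s hG d w).1) (by
      have h2 : (fun w : ℕ => ∫ U in Ioi (0 : ℝ),
          ‖(cc d w : ℂ) * (Ψ (U / w) : ℂ) * (U : ℂ) ^ (-s - 1)‖) = fun w : ℕ =>
          ‖LSeries.term (fun w => (cc d w : ℂ)) s w‖ *
            ∫ r in Ioi (0 : ℝ), ‖(Ψ r : ℂ) * (r : ℂ) ^ (-s - 1)‖ :=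
        funext fun w => (MEA_int s hG d w).2.2
      rw [h2]
      exact hs.norm.mul_right _)
  have h3 : ∀ U : ℝ, ∑' w : ℕ, (cc d w : ℂ) * (Ψ (U / w) : ℂ) * (U : ℂ) ^ (-s - 1) =
      ((∑' w : ℕ, (cc d w : ℝ) * Ψ (U / w) : ℝ) : ℂ) * (U : ℂ) ^ (-s - 1) := by
    intro U
    rw [tsum_mul_right, Complex.ofReal_tsum]
    simp
  simp only [h3] at h1
  have h4 : (fun w : ℕ => ∫ U in Ioi (0 : ℝ),
      (cc d w : ℂ) * (Ψ (U / w) : ℂ) * (U : ℂ) ^ (-s - 1)) = fun w : ℕ =>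
      LSeries.term (fun w => (cc d w : ℂ)) s w * ∫ r in Ioi (0 : ℝ), (Ψ r : ℂ) * (r : ℂ) ^ (-s - 1) :=
    funext fun w => (MEA_int s hG d w).2.1
  rw [h4] at h1
  have h5 := hs.hasSum.mul_right (∫ r in Ioi (0 : ℝ), (Ψ r : ℂ) * (r : ℂ) ^ (-s - 1))
  exact h1.unique h5

/-- the remainder -/
noncomputable def MEA_R (Ψ : ℝ → ℝ) (d : ℕ) (C : ℝ) (U : ℝ) : ℝ :=
  (∑' w : ℕ, (cc d w : ℝ) * Ψ (U / w)) - if 1 < U then C * U ^ d else 0

theorem MEA_R_meas {Ψ : ℝ → ℝ} {a b : ℝ} (hm : Measurable Ψ) (ha : 0 < a)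
    (h : ∀ r, Ψ r ≠ 0 → a ≤ r ∧ r ≤ b) (d : ℕ) (C : ℝ) : Measurable (MEA_R Ψ d C) := by
  refine (MEA_meas hm ha h d).sub (Measurable.ite measurableSet_Ioi ?_ measurable_const)
  fun_prop

theorem MEA_R_zero {Ψ : ℝ → ℝ} {a b : ℝ} (h : ∀ r, Ψ r ≠ 0 → a ≤ r ∧ r ≤ b) (ha : 0 < a)
    (d : ℕ) (C : ℝ) (U : ℝ) (h1 : U < a) (h2 : U < 1) : MEA_R Ψ d C U = 0 := by
  rw [MEA_R, if_neg (not_lt.mpr h2.le), sub_zero]
  have : ∀ w : ℕ, (cc d w : ℝ) * Ψ (U / w) = 0 := by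
    intro w
    by_contra hne
    have h3 : Ψ (U / w) ≠ 0 := fun h0 => hne (by rw [h0, mul_zero])
    obtain ⟨h4, h5⟩ := MEA_supp ha h U w h3
    have h6 : (1 : ℝ) ≤ w := by exact_mod_cast h4
    nlinarith
  simp [this]

theorem MEA_R_bound {Ψ : ℝ → ℝ} {a b B : ℝ} (ha : 0 < a)
    (h : ∀ r, Ψ r ≠ 0 → a ≤ r ∧ r ≤ b) (h0 : ∀ r, 0 ≤ Ψ r) (hB : ∀ r, Ψ r ≤ B) (d : ℕ) (C K : ℝ)
    (hK : ∀ U : ℝ, 1 ≤ U → |(∑' w : ℕ, (cc d w : ℝ) * Ψ (U / w)) - C * U ^ d| ≤ K) :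
    ∃ L : ℝ, ∀ U : ℝ, |MEA_R Ψ d C U| ≤ L := by
  obtain ⟨N, hN⟩ := MEA_exists ha 1
  refine ⟨max K (∑ w ∈ Finset.range N, (cc d w : ℝ) * B), fun U => ?_⟩
  by_cases hU : 1 < U
  · rw [MEA_R, if_pos hU]
    exact (hK U hU.le).trans (le_max_left _ _)
  · rw [MEA_R, if_neg hU, sub_zero]
    refine le_trans ?_ (le_max_right _ _)
    have h1 : U < a * N := lt_of_le_of_lt (not_lt.mp hU) hN
    rw [tsum_eq_sum (MEA_finite ha h d U N h1),
      abs_of_nonneg (Finset.sum_nonneg fun w _ => mul_nonneg (Nat.cast_nonneg _) (h0 _))]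
    exact Finset.sum_le_sum fun w _ => mul_le_mul_of_nonneg_left (hB _) (Nat.cast_nonneg _)

theorem MEA : MEA_stmt := by
  intro d hd Ψ hΨ C K hL hK
  obtain ⟨hm, h0, ⟨B, hB⟩, ⟨a, b, ha, h⟩, -⟩ := hΨ
  obtain ⟨L, hLb⟩ := MEA_R_bound ha h h0 hB d C K hK
  have hmR := MEA_R_meas hm ha h d C
  have hloc : LocallyIntegrableOn (fun U => (MEA_R Ψ d C U : ℂ)) (Ioi 0) := by
    refine LocallyIntegrable.locallyIntegrableOn ?_ _
    refine (locallyIntegrable_const L).mono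
      (Complex.measurable_ofReal.comp hmR).aestronglyMeasurable ?_
    refine Eventually.of_forall fun U => ?_
    rw [Complex.norm_real, Real.norm_eq_abs, Real.norm_eq_abs]
    exact (hLb U).trans (le_abs_self L)
  have htop : (fun U => (MEA_R Ψ d C U : ℂ)) =O[atTop] (fun U : ℝ => U ^ (-(0 : ℝ))) := by
    refine IsBigO.of_bound L (Eventually.of_forall fun U => ?_)
    rw [Complex.norm_real, Real.norm_eq_abs]
    simpa using hLb U
  have hbot : ∀ β : ℝ, (fun U => (MEA_R Ψ d C U : ℂ)) =O[𝓝[>] 0] (fun U : ℝ => U ^ (-β)) := by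
    intro β
    refine IsBigO.of_bound 0 ?_
    have h1 : ∀ᶠ U : ℝ in 𝓝[>] 0, U < min a 1 :=
      (eventually_lt_nhds (lt_min ha one_pos)).filter_mono nhdsWithin_le_nhds
    filter_upwards [h1] with U hU
    rw [MEA_R_zero h ha d C U (hU.trans_le (min_le_left _ _)) (hU.trans_le (min_le_right _ _))]
    simp
  refine ⟨fun s => mellin (fun U => (MEA_R Ψ d C U : ℂ)) (-s) + C / (s - d), ?_, ?_⟩
  · intro s hs
    obtain ⟨hs1, hs2⟩ := hs
    refine DifferentiableAt.differentiableWithinAt ?_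
    refine DifferentiableAt.add ?_ ?_
    · have h1 : DifferentiableAt ℂ (mellin (fun U => (MEA_R Ψ d C U : ℂ))) (-s) :=
        mellin_differentiableAt_of_isBigO_rpow (a := 0) (b := (-s).re - 1) hloc htop
          (by simpa using hs1) (hbot _) (by linarith)
      exact h1.comp s differentiableAt_id.neg
    · refine DifferentiableAt.div (differentiableAt_const _) (by fun_prop) ?_
      exact sub_ne_zero.mpr hs2
  · intro s hs
    have hd0 : (0 : ℝ) ≤ d := Nat.cast_nonneg d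
    have hG := MEA_conv hm ha h h0 hB (-s - 1)
    rw [← MEA_hasSum ha h s hG d (hL s hs)]
    have hc : MellinConvergent (fun U => (MEA_R Ψ d C U : ℂ)) (-s) :=
      mellinConvergent_of_isBigO_rpow (a := 0) (b := (-s).re - 1) hloc htop
          (by simp; linarith) (hbot _) (by linarith)
    have hlt : ((d : ℂ) + (-s - 1)).re < -1 := by
      simp
      linarith
    have h2 : ∀ U ∈ Ioi (1 : ℝ), (C : ℂ) * (U : ℂ) ^ ((d : ℂ) + (-s - 1)) =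
        ((if 1 < U then C * U ^ d else 0 : ℝ) : ℂ) * (U : ℂ) ^ (-s - 1) := by
      intro U hU
      have hU0 : (U : ℂ) ≠ 0 := by
        have : (0 : ℝ) < U := lt_trans one_pos hU
        exact_mod_cast this.ne'
      rw [if_pos (show 1 < U from hU), Complex.cpow_add _ _ hU0]
      push_cast
      rw [Complex.cpow_natCast]
      ring
    have h3 : IntegrableOn (fun U : ℝ => ((if 1 < U then C * U ^ d else 0 : ℝ) : ℂ) *
        (U : ℂ) ^ (-s - 1)) (Ioi 1) := by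
      rw [← integrableOn_congr_fun h2 measurableSet_Ioi]
      exact (integrableOn_Ioi_cpow_of_lt hlt one_pos).const_mul _
    have h4 : IntegrableOn (fun U : ℝ => ((if 1 < U then C * U ^ d else 0 : ℝ) : ℂ) *
        (U : ℂ) ^ (-s - 1)) (Ioi 0) := by
      refine IntegrableOn.of_forall_diff_eq_zero h3 measurableSet_Ioi ?_
      intro U hU
      have : ¬ 1 < U := fun h => hU.2 h
      rw [if_neg this]
      simp
    have h5 : ∫ U in Ioi (0 : ℝ), ((if 1 < U then C * U ^ d else 0 : ℝ) : ℂ) *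
        (U : ℂ) ^ (-s - 1) = C / (s - d) := by
      have h6 : ∫ U in Ioi (0 : ℝ), ((if 1 < U then C * U ^ d else 0 : ℝ) : ℂ) *
          (U : ℂ) ^ (-s - 1) = ∫ U in Ioi (1 : ℝ), ((if 1 < U then C * U ^ d else 0 : ℝ) : ℂ) *
          (U : ℂ) ^ (-s - 1) := by
        refine setIntegral_eq_of_subset_of_forall_diff_eq_zero measurableSet_Ioi
          (Ioi_subset_Ioi zero_le_one) ?_
        intro U hU
        have : ¬ 1 < U := fun h => hU.2 h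
        rw [if_neg this]
        simp
      rw [h6, ← setIntegral_congr_fun measurableSet_Ioi h2, integral_const_mul,
        integral_Ioi_cpow_of_lt hlt one_pos]
      have h7 : (s - d : ℂ) ≠ 0 := by
        intro h8
        have := congrArg Complex.re h8
        simp at this
        linarith
      have h8 : ((d : ℂ) + (-s - 1) + 1) = -(s - d) := by ring
      rw [h8, Complex.ofReal_one, Complex.one_cpow, neg_div_neg_eq, mul_one_div]
    have h9 : ∫ U in Ioi (0 : ℝ), ((∑' w : ℕ, (cc d w : ℝ) * Ψ (U / w) : ℝ) : ℂ) *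
        (U : ℂ) ^ (-s - 1) = ∫ U in Ioi (0 : ℝ), ((U : ℂ) ^ (-s - 1) • (MEA_R Ψ d C U : ℂ) +
        ((if 1 < U then C * U ^ d else 0 : ℝ) : ℂ) * (U : ℂ) ^ (-s - 1)) := by
      refine setIntegral_congr_fun measurableSet_Ioi fun U _ => ?_
      simp only [MEA_R, smul_eq_mul]
      push_cast
      ring
    rw [h9, integral_add hc h4, h5]
    rfl

end Pool.Agent.BRZ
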